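import Pool.Agent.N869.GK.D.Stm

/-!
# GK/D-INJ: the 2-Selmer groups of the twists (helper595, for project GK of helper869)
-/

set_option autoImplicit false
set_option linter.unusedVariables false

open scoped Classical

namespace Pool.Agent.N595.GK

open Finset
open Pool.Agent.Y703.CQ (nr)
open Pool.Agent.N973.ND (uu)
open Pool.Agent.TH841.SH (LocC SelG)
open Pool.Agent.N869.GK Pool.Agent.N869.GK.D

/-! ### Integers -/

lemma prime_dvd_MM {b : Finset ℕ} (hb : ∀ l ∈ b, l.Prime ∧ l ≠ 2) {p : ℕ} (hp : p.Prime) :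
    p ∣ MM b ↔ p = 2 ∨ p ∈ b := by
  unfold MM
  rw [hp.dvd_mul]
  constructor
  · rintro (h | h)
    · left
      have h1 : p ∣ 2 ^ 3 := by norm_num; exact h
      exact (Nat.prime_dvd_prime_iff_eq hp Nat.prime_two).1 (hp.dvd_of_dvd_pow h1)
    · right
      obtain ⟨l, hl, h⟩ := (hp.prime.dvd_finsetProd_iff _).1 h
      rw [(Nat.prime_dvd_prime_iff_eq hp (hb l hl).1).1 h]
      exact hl
  · rintro (rfl | h)
    · left; norm_num
    · right; exact Finset.dvd_prod_of_mem _ h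

lemma sqf_eq {a b : ℤ} (ha : Squarefree a) (hb : Squarefree b) (h : IsSquare (a * b)) : a = b := by
  obtain ⟨c, hc⟩ := h
  have ha0 : a ≠ 0 := ha.ne_zero
  have h1 : a ∣ c ^ 2 := ⟨b, by rw [hc]; ring⟩
  have h2 : a ∣ c := (ha.dvd_pow_iff_dvd two_ne_zero).1 h1
  obtain ⟨k, hk⟩ := h2
  have h3 : b = a * (k * k) := by
    apply mul_left_cancel₀ ha0
    rw [hc, hk]; ring
  have h4 : IsUnit k := hb k ⟨a, by rw [h3]; ring⟩
  rcases Int.isUnit_iff.1 h4 with h | h <;> rw [h3, h] <;> ring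

/-! ### Symbols -/

/-- the additive Legendre symbol -/
noncomputable def sy (p : ℕ) (n : ℤ) : ZMod 2 := if IsSquare ((n : ℤ) : ZMod p) then 0 else 1

lemma sy_one (p : ℕ) : sy p 1 = 0 := by
  unfold sy
  rw [if_pos]
  rw [Int.cast_one]
  exact IsSquare.one

lemma sy_nat (p q : ℕ) : sy p (q : ℤ) = nr p q := by
  unfold sy nr
  rw [Int.cast_natCast]

lemma sy_mul {p : ℕ} [Fact p.Prime] {m n : ℤ} (hm : ¬ (p : ℤ) ∣ m)
    (hn : ¬ (p : ℤ) ∣ n) : sy p (m * n) = sy p m + sy p n := by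
  have hm0 : ((m : ℤ) : ZMod p) ≠ 0 := fun h => hm ((ZMod.intCast_zmod_eq_zero_iff_dvd m p).1 h)
  have hn0 : ((n : ℤ) : ZMod p) ≠ 0 := fun h => hn ((ZMod.intCast_zmod_eq_zero_iff_dvd n p).1 h)
  unfold sy
  rw [Int.cast_mul]
  by_cases h1 : IsSquare ((m : ℤ) : ZMod p) <;> by_cases h2 : IsSquare ((n : ℤ) : ZMod p)
  · rw [if_pos h1, if_pos h2, if_pos (h1.mul h2), add_zero]
  · rw [if_pos h1, if_neg h2, if_neg, zero_add]
    intro h
    apply h2
    have : ((n : ℤ) : ZMod p) = ((m : ℤ) : ZMod p) * ((n : ℤ) : ZMod p) / ((m : ℤ) : ZMod p) := by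
      field_simp
    rw [this]
    exact h.div h1
  · rw [if_neg h1, if_pos h2, if_neg, add_zero]
    intro h
    apply h1
    have : ((m : ℤ) : ZMod p) = ((m : ℤ) : ZMod p) * ((n : ℤ) : ZMod p) / ((n : ℤ) : ZMod p) := by
      field_simp
    rw [this]
    exact h.div h2
  · rw [if_neg h1, if_neg h2, if_pos]
    · decide
    · rw [← quadraticChar_one_iff_isSquare (mul_ne_zero hm0 hn0), map_mul,
        quadraticChar_neg_one_iff_not_isSquare.2 h1, quadraticChar_neg_one_iff_not_isSquare.2 h2]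
      norm_num

lemma zmod2_cases (a : ZMod 2) : a = 0 ∨ a = 1 := by
  revert a; decide

lemma sy_ite (p : ℕ) (a : ZMod 2) (A : ℤ) : sy p (if a = 1 then A else 1) = a * sy p A := by
  rcases zmod2_cases a with h | h
  · subst h
    rw [if_neg (by decide), sy_one, zero_mul]
  · subst h
    rw [if_pos rfl, one_mul]

lemma ite_not_dvd {p : ℕ} [hp : Fact p.Prime] (a : ZMod 2) {A : ℤ} (hA : ¬ (p : ℤ) ∣ A) :
    ¬ (p : ℤ) ∣ (if a = 1 then A else 1) := by
  split_ifs
  · exact hA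
  · intro h
    exact (Nat.prime_iff_prime_int.1 hp.out).not_isUnit (isUnit_of_dvd_one h)

lemma mul_not_dvd {p : ℕ} [hp : Fact p.Prime] {A B : ℤ} (hA : ¬ (p : ℤ) ∣ A)
    (hB : ¬ (p : ℤ) ∣ B) : ¬ (p : ℤ) ∣ A * B := by
  intro h
  rcases (Nat.prime_iff_prime_int.1 hp.out).dvd_or_dvd h with h | h
  · exact hA h
  · exact hB h

lemma sy_of_sq {p : ℕ} [Fact p.Prime] {m n : ℤ} (hm : ¬ (p : ℤ) ∣ m) (hn : ¬ (p : ℤ) ∣ n)
    (h : IsSquare (m * n)) : sy p m = sy p n := by
  have h1 : sy p (m * n) = 0 := by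
    unfold sy
    rw [if_pos]
    obtain ⟨c, hc⟩ := h
    exact ⟨(c : ZMod p), by rw [hc]; push_cast; ring⟩
  rw [sy_mul hm hn] at h1
  rcases zmod2_cases (sy p m) with h2 | h2 <;> rcases zmod2_cases (sy p n) with h3 | h3 <;>
    rw [h2, h3] at h1 ⊢
  · simp at h1
  · simp at h1

lemma sy_prod {p : ℕ} [Fact p.Prime] (T : Finset ℕ) (hT : ∀ q ∈ T, ¬ p ∣ q) (w : ℕ → ZMod 2) :
    (¬ (p : ℤ) ∣ ((∏ q ∈ T, (if w q = 1 then q else 1) : ℕ) : ℤ)) ∧
    sy p ((∏ q ∈ T, (if w q = 1 then q else 1) : ℕ) : ℤ) = ∑ q ∈ T, w q * nr p q := by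
  induction T using Finset.induction_on with
  | empty =>
    refine ⟨?_, ?_⟩
    · rw [Finset.prod_empty, Nat.cast_one]
      have := ite_not_dvd (p := p) (0 : ZMod 2) (A := 1)
      intro h
      exact (Nat.prime_iff_prime_int.1 (Fact.out : p.Prime)).not_isUnit (isUnit_of_dvd_one h)
    · rw [Finset.prod_empty, Nat.cast_one, sy_one, Finset.sum_empty]
  | insert q T hq ih =>
    obtain ⟨ih1, ih2⟩ := ih fun q hq => hT q (Finset.mem_insert_of_mem hq)
    have h0 : ¬ (p : ℤ) ∣ ((q : ℕ) : ℤ) := by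
      rw [Int.natCast_dvd_natCast]
      exact hT q (Finset.mem_insert_self _ _)
    have h1 : ¬ (p : ℤ) ∣ (if w q = 1 then (q : ℤ) else 1) := ite_not_dvd _ h0
    rw [Finset.prod_insert hq, Finset.sum_insert hq]
    have e : (((if w q = 1 then q else 1) * ∏ q ∈ T, (if w q = 1 then q else 1) : ℕ) : ℤ) =
        (if w q = 1 then (q : ℤ) else 1) * ((∏ q ∈ T, (if w q = 1 then q else 1) : ℕ) : ℤ) := by
      push_cast
      congr 1
    rw [e]
    refine ⟨mul_not_dvd h1 ih1, ?_⟩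
    rw [sy_mul h1 ih1, ih2, sy_ite, sy_nat]

lemma sy_of_padic {p : ℕ} [hp : Fact p.Prime] {n : ℤ} (hn : ¬ (p : ℤ) ∣ n)
    (h : IsSquare ((n : ℤ) : ℚ_[p])) : sy p n = 0 := by
  obtain ⟨z, hz⟩ := h
  have h1 : ‖((n : ℤ) : ℤ_[p])‖ = 1 := by
    apply le_antisymm (PadicInt.norm_le_one _)
    by_contra hlt
    push Not at hlt
    exact hn ((PadicInt.norm_int_lt_one_iff_dvd n).1 hlt)
  have h2 : ‖((n : ℤ) : ℚ_[p])‖ = 1 := by
    rw [← h1]
    rw [PadicInt.norm_def]
    rw [PadicInt.coe_intCast]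
  have h3 : ‖z‖ * ‖z‖ = 1 := by rw [← norm_mul, ← hz, h2]
  have h4 : ‖z‖ ≤ 1 := by nlinarith [norm_nonneg z]
  set y : ℤ_[p] := ⟨z, h4⟩ with hy
  have h5 : ((n : ℤ) : ℤ_[p]) = y * y := by
    apply Subtype.ext
    rw [PadicInt.coe_intCast, PadicInt.coe_mul]
    exact hz
  unfold sy
  rw [if_pos]
  refine ⟨PadicInt.toZMod y, ?_⟩
  rw [← map_mul, ← h5, map_intCast]

/-- a square times `p ^ 2`-powers -/
lemma sq_cancel {p : ℕ} [Fact p.Prime] {k n : ℤ} (hk : k ≠ 0)
    (h : IsSquare ((k * k * n : ℤ) : ℚ_[p])) : IsSquare ((n : ℤ) : ℚ_[p]) := by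
  have hk' : ((k : ℤ) : ℚ_[p]) ≠ 0 := by exact_mod_cast hk
  have e : ((n : ℤ) : ℚ_[p]) = ((k * k * n : ℤ) : ℚ_[p]) / (((k : ℤ) : ℚ_[p]) * ((k : ℤ) : ℚ_[p])) := by
    push_cast
    field_simp
  rw [e]
  exact h.div ⟨_, rfl⟩

/-! ### Local points of the twists -/

lemma loc_scale {K : Type} [Field K] {e1 e2 e3 : ℤ} {d : ℕ} (hd : ((d : ℤ) : K) ≠ 0)
    (hs : IsSquare ((d : ℤ) : K)) {m n : ℤ} (h : LocC K (d * e1) (d * e2) (d * e3) m n) :
    LocC K e1 e2 e3 m n := by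
  obtain ⟨δ, hδ⟩ := hs
  obtain ⟨x, y, hy, hxy, ⟨z, hz⟩, ⟨t, ht⟩⟩ := h
  have hδ0 : δ ≠ 0 := by
    rintro rfl
    rw [mul_zero] at hδ
    exact hd hδ
  push_cast at hxy hz ht hδ
  rw [hδ] at hxy hz ht
  refine ⟨x / (δ * δ), y / (δ * δ * δ), div_ne_zero hy (by positivity), ?_, ?_, ?_⟩
  · field_simp
    rw [hxy]
    ring
  · refine ⟨z / δ, ?_⟩
    have e : z / δ * (z / δ) = z * z / (δ * δ) := by field_simp
    rw [e, ← hz]
    field_simp
  · refine ⟨t / δ, ?_⟩
    have e : t / δ * (t / δ) = t * t / (δ * δ) := by field_simp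
    rw [e, ← ht]
    field_simp

/-! ### Classes -/

section cls

variable {b : Finset ℕ} {r : ℕ} {g : Fin r → ℤ}

lemma decomp (hG : S_GEN) (hg : Gen b g) {d : ℕ} (hd : Squarefree d) {m : ℤ} (hm : Squarefree m)
    (hp : ∀ p : ℕ, p.Prime → (p : ℤ) ∣ m → p = 2 ∨ p ∈ b ∨ p ∣ d) :
    ∃ (s : Gr r) (w : ℕ → ZMod 2), (∀ p, p ∉ d.primeFactors → w p = 0) ∧
      (∀ p ∈ d.primeFactors, (w p = 1 ↔ (p : ℤ) ∣ m)) ∧
      m = rep g s * ((∏ p ∈ d.primeFactors, (if w p = 1 then p else 1) : ℕ) : ℤ) := by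
  obtain ⟨g1, g2, g3, g4, g5⟩ := hG.2 b r g hg
  set T := d.primeFactors with hT
  set w : ℕ → ZMod 2 := fun p => if p ∈ T ∧ (p : ℤ) ∣ m then 1 else 0 with hw
  have hw1 : ∀ p ∈ T, (w p = 1 ↔ (p : ℤ) ∣ m) := by
    intro p hp
    simp only [hw]
    by_cases h : (p : ℤ) ∣ m
    · rw [if_pos ⟨hp, h⟩]; exact ⟨fun _ => h, fun _ => rfl⟩
    · rw [if_neg (fun h' => h h'.2)]
      exact ⟨fun h' => absurd h' (by decide), fun h' => absurd h' h⟩
  have hpr : ∀ p ∈ T, p.Prime := fun p hp => Nat.prime_of_mem_primeFactors hp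
  set M0 : ℕ := ∏ p ∈ T, (if w p = 1 then p else 1) with hM0
  have hM0' : M0 = ∏ p ∈ T.filter (fun p => w p = 1), p := by
    rw [hM0, Finset.prod_filter]
  have hdvd : (M0 : ℤ) ∣ m := by
    rw [Int.natCast_dvd, hM0']
    refine Finset.prod_primes_dvd _ (fun p hp => (hpr p (Finset.mem_filter.1 hp).1).prime) ?_
    intro p hp
    obtain ⟨h1, h2⟩ := Finset.mem_filter.1 hp
    exact Int.natCast_dvd.1 ((hw1 p h1).1 h2)
  obtain ⟨m1, hm1⟩ := hdvd
  have hm1s : Squarefree m1 := hm.squarefree_of_dvd ⟨M0, by rw [hm1]; ring⟩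
  have hm1p : ∀ q : ℕ, q.Prime → (q : ℤ) ∣ m1 → q = 2 ∨ q ∈ b := by
    intro q hq hqm
    have hqm' : (q : ℤ) ∣ m := by rw [hm1]; exact Dvd.dvd.mul_left hqm _
    rcases hp q hq hqm' with h | h | h
    · exact Or.inl h
    · exact Or.inr h
    · exfalso
      have hqT : q ∈ T := Nat.mem_primeFactors.2 ⟨hq, h, hd.ne_zero⟩
      have hqw : w q = 1 := (hw1 q hqT).2 hqm'
      have hqM : (q : ℤ) ∣ (M0 : ℤ) := by
        rw [Int.natCast_dvd_natCast, hM0']
        exact Finset.dvd_prod_of_mem _ (Finset.mem_filter.2 ⟨hqT, hqw⟩)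
      have hqq : (q : ℤ) * q ∣ m := by rw [hm1]; exact mul_dvd_mul hqM hqm
      exact (Nat.prime_iff_prime_int.1 hq).not_isUnit (hm _ hqq)
  refine ⟨ecl g m1, w, ?_, hw1, ?_⟩
  · intro p hp
    simp only [hw]
    rw [if_neg (fun h' => hp h'.1)]
  · have h := sqf_eq hm1s (g1 _) (g5 m1 hm1s.ne_zero hm1p)
    rw [← h, hm1]; ring

lemma lam_one : lam g 1 = 0 := by
  funext i
  simp [lam, jacobiSym.one_right]

lemma lam_prod (hL1 : ∀ u w : ℕ, u.Coprime (MM b) → w.Coprime (MM b) →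
      lam g (u * w) = lam g u + lam g w) (T : Finset ℕ) (hT : ∀ p ∈ T, p.Coprime (MM b))
    (w : ℕ → ZMod 2) : (∏ p ∈ T, (if w p = 1 then p else 1)).Coprime (MM b) ∧
      lam g (∏ p ∈ T, (if w p = 1 then p else 1)) = ∑ p ∈ T, w p • lam g p := by
  induction T using Finset.induction_on with
  | empty =>
    rw [Finset.prod_empty, Finset.sum_empty]
    exact ⟨Nat.coprime_one_left _, lam_one⟩
  | insert q T hq ih =>
    obtain ⟨ih1, ih2⟩ := ih fun q hq => hT q (Finset.mem_insert_of_mem hq)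
    have hc : (if w q = 1 then q else 1).Coprime (MM b) := by
      split_ifs
      · exact hT q (Finset.mem_insert_self _ _)
      · exact Nat.coprime_one_left _
    rw [Finset.prod_insert hq, Finset.sum_insert hq]
    refine ⟨Nat.Coprime.mul_left hc ih1, ?_⟩
    rw [hL1 _ _ hc ih1, ih2]
    congr 1
    rcases zmod2_cases (w q) with h | h
    · rw [h, if_neg (by decide), zero_smul, lam_one]
    · rw [h, if_pos rfl, one_smul]

lemma dot_add_left (x y z : Gr r) : dot (x + y) z = dot x z + dot y z := by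
  unfold dot
  rw [← Finset.sum_add_distrib]
  refine Finset.sum_congr rfl fun i _ => ?_
  rw [Pi.add_apply, add_mul]

/-- the symbol of an integer without other prime divisors -/
lemma sy_ecl (hG : S_GEN) (hg : Gen b g) {p : ℕ} [hp : Fact p.Prime] (hpM : ¬ p ∣ MM b)
    (h4 : ∀ x : Gr r, dot x (lam g p) = sy p (rep g x))
    {n : ℤ} (hn : n ≠ 0) (hnp : ∀ q : ℕ, q.Prime → (q : ℤ) ∣ n → q = 2 ∨ q ∈ b) :
    ¬ (p : ℤ) ∣ n ∧ sy p n = dot (ecl g n) (lam g p) := by
  obtain ⟨g1, g2, g3, g4, g5⟩ := hG.2 b r g hg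
  have h0 : ¬ (p : ℤ) ∣ n := by
    intro h
    exact hpM ((prime_dvd_MM hg.odd hp.out).2 (hnp p hp.out h))
  have h1 : ¬ (p : ℤ) ∣ rep g (ecl g n) := by
    intro h
    exact hpM ((prime_dvd_MM hg.odd hp.out).2 (g2 _ p hp.out h))
  refine ⟨h0, ?_⟩
  rw [sy_of_sq h0 h1 (g5 n hn hnp), h4]

/-- one component of the equations at `p` -/
lemma one_row (hG : S_GEN) (hg : Gen b g) {p : ℕ} [hp : Fact p.Prime] (hpM : ¬ p ∣ MM b)
    (h4 : ∀ x : Gr r, dot x (lam g p) = sy p (rep g x))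
    {T : Finset ℕ} (hpT : p ∈ T) (hT : ∀ q ∈ T, q.Prime) (s : Gr r) (w : ℕ → ZMod 2)
    {m : ℤ} (hm : m = rep g s * ((∏ q ∈ T, (if w q = 1 then q else 1) : ℕ) : ℤ))
    (k a A B : ℤ) (a' b' : ZMod 2) (hA : ¬ (p : ℤ) ∣ A) (hB : ¬ (p : ℤ) ∣ B)
    (hka : (if w p = 1 then (p : ℤ) else 1) * a = k * k)
    (hk : k ≠ 0)
    (hsq : IsSquare ((m * (a * (if a' = 1 then A else 1) * (if b' = 1 then B else 1)) : ℤ) : ℚ_[p])) :
    dot s (lam g p) + ∑ q ∈ T.erase p, w q * nr p q + a' * sy p A + b' * sy p B = 0 := by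
  obtain ⟨g1, g2, g3, g4, g5⟩ := hG.2 b r g hg
  have hT' : ∀ q ∈ T.erase p, ¬ p ∣ q := by
    intro q hq h
    rw [Nat.prime_dvd_prime_iff_eq hp.out (hT q (Finset.mem_of_mem_erase hq))] at h
    exact Finset.ne_of_mem_erase hq h.symm
  obtain ⟨p1, p2⟩ := sy_prod (p := p) (T.erase p) hT' w
  have hrep : ¬ (p : ℤ) ∣ rep g s := by
    intro h
    exact hpM ((prime_dvd_MM hg.odd hp.out).2 (g2 _ p hp.out h))
  have hsyr : sy p (rep g s) = dot s (lam g p) := (h4 s).symm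
  set Q : ℤ := ((∏ q ∈ T.erase p, (if w q = 1 then q else 1) : ℕ) : ℤ) with hQ
  have hmQ : m = rep g s * ((if w p = 1 then (p : ℤ) else 1) * Q) := by
    rw [hm, ← Finset.mul_prod_erase T _ hpT, hQ]
    push_cast
    congr 2
  have e : m * (a * (if a' = 1 then A else 1) * (if b' = 1 then B else 1)) =
      k * k * (rep g s * Q * (if a' = 1 then A else 1) * (if b' = 1 then B else 1)) := by
    rw [hmQ, ← hka]; ring
  rw [e] at hsq
  have hsq' := sq_cancel hk hsq
  have hA' : ¬ (p : ℤ) ∣ (if a' = 1 then A else 1) := ite_not_dvd _ hA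
  have hB' : ¬ (p : ℤ) ∣ (if b' = 1 then B else 1) := ite_not_dvd _ hB
  have h1 := mul_not_dvd hrep p1
  have h2 := mul_not_dvd h1 hA'
  have h3 := mul_not_dvd h2 hB'
  have h5 := sy_of_padic h3 hsq'
  rw [sy_mul h2 hB', sy_mul h1 hA', sy_mul hrep p1, sy_ite, sy_ite, hsyr, p2] at h5
  exact h5

end cls

lemma row_sum {p : ℕ} {T : Finset ℕ} (hp : p ∈ T) (w : ℕ → ZMod 2) :
    ∑ j ∈ T, nr p j * (w p + w j) =
      w p * ∑ j ∈ T.erase p, (1 : ZMod 2) * nr p j + ∑ j ∈ T.erase p, w j * nr p j := by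
  rw [← Finset.add_sum_erase T _ hp]
  have h0 : w p + w p = 0 := CharTwo.add_self_eq_zero _
  rw [h0, mul_zero, zero_add, Finset.mul_sum, ← Finset.sum_add_distrib]
  refine Finset.sum_congr rfl fun j _ => ?_
  ring

lemma sqK {K : Type} [Field K] {R : ℤ} {m0 u0 : ℕ} (h : IsSquare (((m0 * u0 : ℕ) : ℤ) : K)) :
    IsSquare (((R * (m0 : ℤ)) * (R * (u0 : ℤ)) : ℤ) : K) := by
  obtain ⟨c, hc⟩ := h
  refine ⟨(R : K) * c, ?_⟩
  have e : (R : K) * c * ((R : K) * c) = (R : K) * R * (c * c) := by ring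
  rw [e, ← hc]
  push_cast
  ring

theorem t_INJ : S_INJ := by
  intro hSUB hG hLAB hLCG hUNR hRAM b e1 e2 e3 r g hg hC W hW d hd hdc hd0
  obtain ⟨g1, g2, g3, g4, g5⟩ := hG.2 b r g hg
  obtain ⟨l1, l2, l3, l4, l5, l6, l7⟩ := hLAB hG b r g hg
  obtain ⟨hR, hP⟩ := hLCG e1 e2 e3 hC.h12 hC.h13 hC.h23
  set T := d.primeFactors with hT
  set D := PD g e1 e2 e3 W with hD
  have hdne : d ≠ 0 := hd.ne_zero
  have hTp : ∀ p ∈ T, p.Prime := fun p hp => Nat.prime_of_mem_primeFactors hp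
  have hTd : ∀ p ∈ T, p ∣ d := fun p hp => Nat.dvd_of_mem_primeFactors hp
  have hTc : ∀ p ∈ T, p.Coprime (MM b) := fun p hp => Nat.Coprime.coprime_dvd_left (hTd p hp) hdc
  have hTM : ∀ p ∈ T, ¬ p ∣ MM b := fun p hp =>
    (Nat.Prime.coprime_iff_not_dvd (hTp p hp)).1 (hTc p hp)
  have hMM8 : MM b ≠ 1 := by
    intro h
    have : 8 ∣ MM b := ⟨_, rfl⟩
    rw [h] at this
    omega
  set F : (Fin 2 → Gr r) × (ℕ → V) → ℤ × ℤ := fun x =>
    (rep g (x.1 0) * ((∏ q ∈ T, (if x.2 q 0 = 1 then q else 1) : ℕ) : ℤ),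
     rep g (x.1 1) * ((∏ q ∈ T, (if x.2 q 1 = 1 then q else 1) : ℕ) : ℤ)) with hF
  have hfin : {x | Sol D (lam g) nr T x}.Finite :=
    (hSUB r D ℕ ℕ id Function.injective_id (lam g) nr T T (by intro i; simp)).2
  have hbad : ∀ p : ℕ, p.Prime → (p : ℤ) ∣ (e1 - e2) * (e1 - e3) * (e2 - e3) → p = 2 ∨ p ∈ b := by
    intro p hp h
    by_cases h2 : p = 2
    · exact Or.inl h2
    · exact Or.inr ((hC.mem p).2 ⟨hp, h2, h⟩)
  have hsub : SelG (d * e1) (d * e2) (d * e3) ⊆ F '' {x | Sol D (lam g) nr T x} := by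
    rintro ⟨m, n⟩ ⟨hm, hn, hmR, hmP⟩
    simp only at hm hn hmR hmP
    have hmn : ∀ p : ℕ, p.Prime → ((p : ℤ) ∣ m ∨ (p : ℤ) ∣ n) → p = 2 ∨ p ∈ b ∨ p ∣ d := by
      intro p hp h
      by_contra hcon
      push Not at hcon
      obtain ⟨c1, c2, c3⟩ := hcon
      have : Fact p.Prime := ⟨hp⟩
      have hnd : ¬ (p : ℤ) ∣ ((d : ℤ) * e1 - d * e2) * (d * e1 - d * e3) * (d * e2 - d * e3) := by
        intro h
        have e : ((d : ℤ) * e1 - d * e2) * (d * e1 - d * e3) * (d * e2 - d * e3) =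
          (d * d * d) * ((e1 - e2) * (e1 - e3) * (e2 - e3)) := by ring
        rw [e] at h
        have hdp : ¬ (p : ℤ) ∣ (d : ℤ) := by rw [Int.natCast_dvd_natCast]; exact c3
        have hep : ¬ (p : ℤ) ∣ (e1 - e2) * (e1 - e3) * (e2 - e3) := by
          intro h'
          rcases hbad p hp h' with h'' | h''
          · exact c1 h''
          · exact c2 h''
        exact mul_not_dvd (mul_not_dvd (mul_not_dvd hdp hdp) hdp) hep h
      have h3 := hUNR (d * e1) (d * e2) (d * e3) p c1 hnd m n hm hn (hmP p)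
      rcases h with h | h
      · exact h3.1 h
      · exact h3.2 h
    obtain ⟨s0, w0, a0, b0, c0⟩ := decomp hG hg hd hm fun p hp h => hmn p hp (Or.inl h)
    obtain ⟨s1, w1, a1, b1, c1⟩ := decomp hG hg hd hn fun p hp h => hmn p hp (Or.inr h)
    refine ⟨(![s0, s1], fun p => ![w0 p, w1 p]), ⟨?_, ?_, ?_⟩, ?_⟩
    · intro i hi
      funext c
      fin_cases c
      · exact a0 i hi
      · exact a1 i hi
    · apply hW
      intro u hu
      obtain ⟨q0, r0⟩ := lam_prod l1 T hTc w0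
      obtain ⟨q1, r1⟩ := lam_prod l1 T hTc w1
      have hu0 := hu 0
      have hu1 := hu 1
      have x0 : (Xl (lam g) T ![s0, s1] (fun p => ![w0 p, w1 p])).2 0 =
          lam g (∏ p ∈ T, (if w0 p = 1 then p else 1)) := by rw [r0]; rfl
      have x1 : (Xl (lam g) T ![s0, s1] (fun p => ![w0 p, w1 p])).2 1 =
          lam g (∏ p ∈ T, (if w1 p = 1 then p else 1)) := by rw [r1]; rfl
      rw [x0] at hu0
      rw [x1] at hu1
      have y0 := l7 _ (Nat.Coprime.mul_left q0 hu0.1) (by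
        rw [l1 _ _ q0 hu0.1, hu0.2]
        funext i
        exact CharTwo.add_self_eq_zero _)
      have y1 := l7 _ (Nat.Coprime.mul_left q1 hu1.1) (by
        rw [l1 _ _ q1 hu1.1, hu1.2]
        funext i
        exact CharTwo.add_self_eq_zero _)
      have yd := l7 d hdc hd0
      have une : ∀ c, (u c : ℤ) ≠ 0 := by
        intro c h
        have h1 : u c = 0 := by exact_mod_cast h
        have h2 := (hu c).1
        rw [h1, Nat.coprime_zero_left] at h2
        exact hMM8 h2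
      have z0 : rep g ((Xl (lam g) T ![s0, s1] (fun p => ![w0 p, w1 p])).1 0) * u 0 ≠ 0 :=
        mul_ne_zero (g1 _).ne_zero (une 0)
      have z1 : rep g ((Xl (lam g) T ![s0, s1] (fun p => ![w0 p, w1 p])).1 1) * u 1 ≠ 0 :=
        mul_ne_zero (g1 _).ne_zero (une 1)
      constructor
      · refine hR.cls m n _ _ hm.ne_zero hn.ne_zero z0 z1 ?_ ?_
          (loc_scale (by exact_mod_cast hdne) yd.1 hmR)
        · have := sqK (R := rep g s0) y0.1
          rw [← c0] at this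
          exact this
        · have := sqK (R := rep g s1) y1.1
          rw [← c1] at this
          exact this
      · intro p hpF hpM
        refine (hP p).cls m n _ _ hm.ne_zero hn.ne_zero z0 z1 ?_ ?_
          (loc_scale (by exact_mod_cast hdne) (yd.2 p hpM) (hmP p))
        · have := sqK (R := rep g s0) (y0.2 p hpM)
          rw [← c0] at this
          exact this
        · have := sqK (R := rep g s1) (y1.2 p hpM)
          rw [← c1] at this
          exact this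
    · intro p hpT
      have hp : p.Prime := hTp p hpT
      have hpF : Fact p.Prime := ⟨hp⟩
      have hpM := hTM p hpT
      have hp2b : ¬ (p = 2 ∨ p ∈ b) := fun h => hpM ((prime_dvd_MM hg.odd hp).2 h)
      have hpe : ¬ (p : ℤ) ∣ (e1 - e2) * (e1 - e3) * (e2 - e3) := fun h => hp2b (hbad p hp h)
      have h4' : ∀ x : Gr r, dot x (lam g p) = sy p (rep g x) := by
        intro x
        rw [l4 p hp hpM x]
        unfold sy
        congr
      have hd' : d = p * ∏ q ∈ T.erase p, (if (1 : ZMod 2) = 1 then q else 1) := by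
        simp only [if_true]
        have h1 := Finset.mul_prod_erase T (fun q => q) hpT
        have h2 := Nat.prod_primeFactors_of_squarefree hd
        rw [← hT] at h2
        rw [h2] at h1
        exact h1.symm
      have hT' : ∀ q ∈ T.erase p, ¬ p ∣ q := by
        intro q hq h
        rw [Nat.prime_dvd_prime_iff_eq hp (hTp q (Finset.mem_of_mem_erase hq))] at h
        exact Finset.ne_of_mem_erase hq h.symm
      obtain ⟨p1, p2⟩ := sy_prod (p := p) (T.erase p) hT' (fun _ => 1)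
      set d' : ℤ := ((∏ q ∈ T.erase p, (if (1 : ZMod 2) = 1 then q else 1) : ℕ) : ℤ) with hd''
      have hdd : (d : ℤ) = p * d' := by
        rw [hd'']
        exact_mod_cast hd'
      have hpd : (p : ℤ) ∣ (d : ℤ) := ⟨d', hdd⟩
      have hppd : ¬ (p : ℤ) ^ 2 ∣ (d : ℤ) := by
        rintro ⟨k, hk⟩
        apply p1
        refine ⟨k, ?_⟩
        have hp0 : (p : ℤ) ≠ 0 := by exact_mod_cast hp.ne_zero
        apply mul_left_cancel₀ hp0
        rw [← hdd, hk]; ring
      obtain ⟨R0, R1⟩ := hRAM e1 e2 e3 d p (fun h => hp2b (Or.inl h)) hpe hpd hppd m n hm hn (hmP p)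
      -- the symbols of the constants
      have k12 := sy_ecl hG hg hpM h4' (n := e1 - e2) (sub_ne_zero.2 hC.h12) (by
        intro q hq h
        exact hbad q hq (Dvd.dvd.mul_right (Dvd.dvd.mul_right h _) _))
      have km := sy_ecl hG hg hpM h4' (n := -1) (by norm_num) (by
        intro q hq h
        exfalso
        have h1 : (q : ℤ) ∣ 1 := by rwa [Int.dvd_neg] at h
        exact (Nat.prime_iff_prime_int.1 hq).not_isUnit (isUnit_of_dvd_one h1))
      have kaa := sy_ecl hG hg hpM h4' (n := (e1 - e2) * (e1 - e3))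
        (mul_ne_zero (sub_ne_zero.2 hC.h12) (sub_ne_zero.2 hC.h13)) (by
        intro q hq h
        exact hbad q hq (Dvd.dvd.mul_right h _))
      have kbb := sy_ecl hG hg hpM h4' (n := (e2 - e1) * (e2 - e3))
        (mul_ne_zero (sub_ne_zero.2 hC.h12.symm) (sub_ne_zero.2 hC.h23)) (by
        intro q hq h
        refine hbad q hq ?_
        have e : (e1 - e2) * (e1 - e3) * (e2 - e3) = (e2 - e1) * (e2 - e3) * (-(e1 - e3)) := by ring
        rw [e]
        exact Dvd.dvd.mul_right h _)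
      have k21 : ¬ (p : ℤ) ∣ (e2 - e1) ∧ sy p (e2 - e1) = dot (ecl g (-1)) (lam g p) +
          dot (ecl g (e1 - e2)) (lam g p) := by
        have e : e2 - e1 = (-1) * (e1 - e2) := by ring
        rw [e]
        exact ⟨mul_not_dvd km.1 k12.1, by rw [sy_mul km.1 k12.1, km.2, k12.2]⟩
      have hw0 : w0 p = 1 ↔ (p : ℤ) ∣ m := b0 p hpT
      have hw1 : w1 p = 1 ↔ (p : ℤ) ∣ n := b1 p hpT
      have hp0 : (p : ℤ) ≠ 0 := by exact_mod_cast hp.ne_zero
      have hk0 : (if w0 p = 1 then (p : ℤ) else 1) ≠ 0 := by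
        split_ifs
        · exact hp0
        · norm_num
      have hk1 : (if w1 p = 1 then (p : ℤ) else 1) ≠ 0 := by
        split_ifs
        · exact hp0
        · norm_num
      have E0 := one_row hG hg hpM h4' hpT hTp s0 w0 c0 (if w0 p = 1 then (p : ℤ) else 1)
        (if w0 p = 1 then (p : ℤ) else 1) (d' * (e2 - e1)) ((e1 - e2) * (e1 - e3)) (w0 p) (w1 p)
        (mul_not_dvd p1 k21.1) kaa.1 rfl hk0 (by
          have e : m * ((if w0 p = 1 then (p : ℤ) else 1) * (if w0 p = 1 then d' * (e2 - e1) else 1) *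
              (if w1 p = 1 then (e1 - e2) * (e1 - e3) else 1)) =
              m * (if (p : ℤ) ∣ m then (d : ℤ) * (e2 - e1) else 1) *
              (if (p : ℤ) ∣ n then (e1 - e2) * (e1 - e3) else 1) := by
            simp only [hw0, hw1]
            by_cases h : (p : ℤ) ∣ m
            · simp only [if_pos h]
              rw [hdd]; ring
            · simp only [if_neg h]
              ring
          rw [e]
          exact R0)
      have E1 := one_row hG hg hpM h4' hpT hTp s1 w1 c1 (if w1 p = 1 then (p : ℤ) else 1)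
        (if w1 p = 1 then (p : ℤ) else 1) ((e2 - e1) * (e2 - e3)) (d' * (e1 - e2)) (w0 p) (w1 p)
        kbb.1 (mul_not_dvd p1 k12.1) rfl hk1 (by
          have e : n * ((if w1 p = 1 then (p : ℤ) else 1) *
              (if w0 p = 1 then (e2 - e1) * (e2 - e3) else 1) *
              (if w1 p = 1 then d' * (e1 - e2) else 1)) =
              n * (if (p : ℤ) ∣ m then (e2 - e1) * (e2 - e3) else 1) *
              (if (p : ℤ) ∣ n then (d : ℤ) * (e1 - e2) else 1) := by
            simp only [hw0, hw1]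
            by_cases h : (p : ℤ) ∣ n
            · simp only [if_pos h]
              rw [hdd]; ring
            · simp only [if_neg h]
              ring
          rw [e]
          exact R1)
      rw [sy_mul p1 k21.1, p2, k21.2, kaa.2] at E0
      rw [sy_mul p1 k12.1, p2, k12.2, kbb.2] at E1
      funext c
      fin_cases c
      · show dot s0 (lam g p) + ∑ j ∈ T, nr p j * (w0 p + w0 j) +
          (dot (ecl g (e1 - e2) + ecl g (-1)) (lam g p) * w0 p +
            dot (ecl g ((e1 - e2) * (e1 - e3))) (lam g p) * w1 p) = 0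
        rw [row_sum hpT, dot_add_left, ← E0]
        ring
      · show dot s1 (lam g p) + ∑ j ∈ T, nr p j * (w1 p + w1 j) +
          (dot (ecl g ((e2 - e1) * (e2 - e3))) (lam g p) * w0 p +
            dot (ecl g (e1 - e2)) (lam g p) * w1 p) = 0
        rw [row_sum hpT, ← E1]
        ring
    · simp only [hF]
      rw [Prod.mk.injEq]
      exact ⟨c0.symm, c1.symm⟩
  exact ⟨(hfin.image F).subset hsub,
    (Set.ncard_le_ncard hsub (hfin.image F)).trans (Set.ncard_image_le hfin)⟩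

end Pool.Agent.N595.GK
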